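import Pool.Agent.Q211.MM.Defs
import Pool.Agent.Q211.MM.Num

/-!
# First event times and variability of Markov-modulated Poisson processes
-/

set_option autoImplicit false

open Matrix

namespace Pool.Agent.Results.MP_af8c33_pr.FirstEventTimes

open Pool.Agent.Q211.MM

/-- The weighted cyclic shift. -/
noncomputable def N : Matrix (Fin 18) (Fin 18) ℝ :=
  Matrix.of fun i j => if j = i + 1 then (w i : ℝ) else 0

/-- The event rates: `0` in the quiet phases and `1 / 2` in the hot phases. -/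
noncomputable def lam (i : Fin 18) : ℝ := 1 - w i

/-- The generator: a cyclic chain. -/
noncomputable def Q : Matrix (Fin 18) (Fin 18) ℝ := N - diagonal fun i => (w i : ℝ)

/-- The stationary distribution. -/
noncomputable def pi (i : Fin 18) : ℝ := (24 * w i)⁻¹

theorem N_mulVec (v : Fin 18 → ℝ) (i : Fin 18) : (N *ᵥ v) i = w i * v (i + 1) := by
  unfold N Matrix.mulVec dotProduct
  simp

theorem w_cases (i : Fin 18) : w i = 1 ∨ w i = 1 / 2 := by
  unfold w
  split_ifs
  · left; rfl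
  · right; rfl

theorem w_pos (i : Fin 18) : (0 : ℝ) < w i := by
  rcases w_cases i with h | h <;> rw [h] <;> norm_num

theorem w_le (i : Fin 18) : (w i : ℝ) ≤ 1 := by
  rcases w_cases i with h | h <;> rw [h] <;> norm_num

theorem C_eq : C Q lam = N - 1 := by
  unfold C Q
  rw [sub_sub, Matrix.diagonal_add]
  congr 1
  rw [← Matrix.diagonal_one]
  congr 1
  funext i
  unfold lam
  ring

theorem Q_apply (i j : Fin 18) : Q i j = (if j = i + 1 then (w i : ℝ) else 0) -
    (if i = j then (w i : ℝ) else 0) := by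
  unfold Q N
  rw [Matrix.sub_apply, Matrix.of_apply, Matrix.diagonal_apply]

theorem mmpp : IsMMPP Q lam pi where
  off i j hij := by
    rw [Q_apply, if_neg hij, sub_zero]
    split_ifs
    · exact (w_pos i).le
    · exact le_rfl
  row i := by
    simp only [Q_apply]
    rw [Finset.sum_sub_distrib]
    simp
  irr S hS hS2 := by
    by_contra hno
    push Not at hno
    apply hS2
    obtain ⟨i, hi⟩ := hS
    have hstep : ∀ a ∈ S, a + 1 ∈ S := by
      intro a ha
      by_contra hb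
      have := hno a ha (a + 1) hb
      rw [Q_apply, if_pos rfl, if_neg] at this
      · have := w_pos a
        linarith
      · have hne : ∀ a : Fin 18, a ≠ a + 1 := by decide
        exact hne a
    have hn : ∀ n : ℕ, i + (n : ℕ) • (1 : Fin 18) ∈ S := by
      intro n
      induction n with
      | zero => simpa using hi
      | succ n ih =>
        have := hstep _ ih
        rwa [add_assoc, ← succ_nsmul] at this
    rw [Set.eq_univ_iff_forall]
    intro j
    have h1 := hn (j - i).val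
    have h2 : ∀ a b : Fin 18, b + (a - b).val • (1 : Fin 18) = a := by decide
    rwa [h2] at h1
  lam_nonneg i := by
    unfold lam
    have := w_le i
    linarith
  lam_ne := by
    refine ⟨12, ?_⟩
    unfold lam w
    norm_num
  pi_nonneg i := by
    unfold pi
    have := w_pos i
    positivity
  pi_sum := by
    have h : ∑ i : Fin 18, (24 * w i)⁻¹ = 1 := by decide +kernel
    have h2 : ((∑ i : Fin 18, (24 * w i)⁻¹ : ℚ) : ℝ) = 1 := by rw [h]; norm_num
    push_cast at h2
    exact h2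
  stat := by
    funext j
    have h1 : ∀ i, pi i * (w i : ℝ) = 1 / 24 := by
      intro i
      unfold pi
      have := (w_pos i).ne'
      field_simp
    show ∑ i, pi i * Q i j = 0
    have h2 : ∀ i, pi i * Q i j = (if i = j - 1 then 1 / 24 else 0) - (if i = j then 1 / 24 else 0) := by
      intro i
      rw [Q_apply, mul_sub, mul_ite, mul_ite, mul_zero, h1]
      have : j = i + 1 ↔ i = j - 1 := by
        constructor
        · rintro rfl
          exact (add_sub_cancel_right i 1).symm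
        · rintro rfl
          exact (sub_add_cancel j 1).symm
      simp only [this]
    simp only [h2]
    rw [Finset.sum_sub_distrib]
    simp

/-- The difference functional. -/
noncomputable def dd (v : Fin 18 → ℝ) : ℝ := alpha lam pi ⬝ᵥ v - pi ⬝ᵥ v

theorem alpha_sub (i : Fin 18) :
    alpha lam pi i - pi i = (((if i.val < 12 then -1 else 2 : ℚ) : ℚ) : ℝ) / 24 := by
  have h1 : ∀ i, pi i * lam i = (((if i.val < 12 then 0 else 1 / 24 : ℚ) : ℚ) : ℝ) := by
    intro i
    unfold pi lam w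
    split_ifs <;> norm_num
  have h2 : ∑ j, pi j * lam j = 1 / 4 := by
    simp only [h1]
    have h : ∑ i : Fin 18, (if i.val < 12 then 0 else 1 / 24 : ℚ) = 1 / 4 := by decide +kernel
    have h3 : ((∑ i : Fin 18, (if i.val < 12 then 0 else 1 / 24 : ℚ) : ℚ) : ℝ) = 1 / 4 := by
      rw [h]; norm_num
    rw [← h3]
    push_cast
    rfl
  unfold alpha
  rw [h2, h1]
  unfold pi w
  split_ifs <;> norm_num

theorem pow_mulVec (m : ℕ) (i : Fin 18) : (N ^ m *ᵥ 1) i = (u m i : ℝ) := by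
  induction m generalizing i with
  | zero => simp [u]
  | succ m ih =>
    rw [pow_succ', ← Matrix.mulVec_mulVec, N_mulVec, ih]
    simp [u]

theorem dd_eq (m : ℕ) : dd (N ^ m *ᵥ 1) = (d m : ℝ) / 24 := by
  unfold dd
  rw [← sub_dotProduct]
  unfold dotProduct d
  push_cast
  rw [Finset.sum_div]
  refine Finset.sum_congr rfl fun i _ => ?_
  rw [Pi.sub_apply, alpha_sub, pow_mulVec]
  push_cast
  ring

theorem u_nonneg (m : ℕ) (i : Fin 18) : 0 ≤ u m i ∧ u m i ≤ 1 := by
  induction m generalizing i with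
  | zero => simp [u]
  | succ m ih =>
    obtain ⟨h1, h2⟩ := ih (i + 1)
    have h3 : 0 ≤ w i ∧ w i ≤ 1 := by
      rcases w_cases i with h | h <;> rw [h] <;> norm_num
    show 0 ≤ w i * u m (i + 1) ∧ w i * u m (i + 1) ≤ 1
    exact ⟨mul_nonneg h3.1 h1, mul_le_one₀ h3.2 h1 h2⟩

theorem d_ge (m : ℕ) : -18 ≤ d m := by
  unfold d
  have h : ∀ i ∈ (Finset.univ : Finset (Fin 18)), (-1 : ℚ) ≤ (if i.val < 12 then -1 else 2) * u m i := by
    intro i _
    obtain ⟨h1, h2⟩ := u_nonneg m i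
    split_ifs <;> linarith
  have := Finset.sum_le_sum h
  simpa using this

theorem exp36 : Real.exp 36 ≤ 2 ^ 58 := by
  have h1 : Real.exp 1 < 3 := lt_trans Real.exp_one_lt_d9 (by norm_num)
  have h2 : Real.exp 36 = Real.exp 1 ^ 36 := by
    rw [← Real.exp_nat_mul]
    norm_num
  rw [h2]
  calc Real.exp 1 ^ 36 ≤ 3 ^ 36 := by
        gcongr
    _ ≤ 2 ^ 58 := by norm_num

theorem term_le (m : ℕ) : (18 : ℝ) ^ m / m.factorial ≤ 2 ^ 58 * (1 / 2) ^ m := by
  have h1 : (36 : ℝ) ^ m / m.factorial ≤ Real.exp 36 :=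
    Real.pow_div_factorial_le_exp 36 (by norm_num) m
  have h2 : (18 : ℝ) ^ m = 36 ^ m * (1 / 2) ^ m := by
    rw [← mul_pow]
    norm_num
  rw [h2, mul_div_right_comm]
  gcongr
  exact h1.trans exp36

theorem series_pos (s : ℝ) (hs : HasSum (fun m : ℕ => (18 : ℝ) ^ m / m.factorial * (d m : ℝ)) s) :
    0 < s := by
  have h1 : (1 : ℝ) ≤ ∑ m ∈ Finset.range 72, (18 : ℝ) ^ m / m.factorial * (d m : ℝ) := by
    have h : ((1 : ℚ) : ℝ) ≤ ((∑ m ∈ Finset.range 72, 18 ^ m / (m.factorial : ℚ) * d m : ℚ) : ℝ) :=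
      Rat.cast_le.2 numeric
    push_cast at h
    exact h
  have h2 := (hasSum_nat_add_iff' 72).2 hs
  have h3 : HasSum (fun m : ℕ => -(18 * 2 ^ 58 * (1 / 2 : ℝ) ^ (m + 72)))
      (-(18 * 2 ^ 58 * (1 / 2) ^ 72 * 2)) := by
    have h4 := (hasSum_geometric_two).mul_left (18 * 2 ^ 58 * (1 / 2 : ℝ) ^ 72)
    refine HasSum.neg ?_
    refine h4.congr_fun ?_
    intro m
    rw [pow_add]
    ring
  have h5 := hasSum_le (fun m => ?_) h3 h2
  · norm_num at h5 ⊢
    linarith
  · have h6 := term_le (m + 72)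
    have h7 : (-18 : ℝ) ≤ d (m + 72) := by exact_mod_cast d_ge (m + 72)
    have h8 : (0 : ℝ) ≤ 18 ^ (m + 72) / (m + 72).factorial := by positivity
    nlinarith

theorem hasSum_exp_mulVec (t : ℝ) (η : Fin 18 → ℝ) :
    HasSum (fun m : ℕ => t ^ m / m.factorial * (η ⬝ᵥ (N ^ m *ᵥ 1)))
      (η ⬝ᵥ (NormedSpace.exp (t • N) *ᵥ 1)) := by
  let _ : NormedRing (Matrix (Fin 18) (Fin 18) ℝ) := Matrix.linftyOpNormedRing
  let _ : NormedAlgebra ℝ (Matrix (Fin 18) (Fin 18) ℝ) := Matrix.linftyOpNormedAlgebra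
  have h := NormedSpace.exp_series_hasSum_exp' (𝕂 := ℝ) (t • N)
  let L : Matrix (Fin 18) (Fin 18) ℝ →ₗ[ℝ] ℝ :=
    { toFun := fun A => η ⬝ᵥ (A *ᵥ 1)
      map_add' := fun A B => by rw [Matrix.add_mulVec, dotProduct_add]
      map_smul' := fun c A => by
        rw [Matrix.smul_mulVec, dotProduct_smul]
        rfl }
  have h2 := h.map L.toAddMonoidHom (LinearMap.continuous_of_finiteDimensional L)
  refine h2.congr_fun ?_
  intro m
  show _ = η ⬝ᵥ (((m.factorial : ℝ)⁻¹ • (t • N) ^ m) *ᵥ 1)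
  rw [smul_pow, smul_smul, Matrix.smul_mulVec, dotProduct_smul, smul_eq_mul]
  ring

theorem exp_C (t : ℝ) :
    NormedSpace.exp (t • C Q lam) = Real.exp (-t) • NormedSpace.exp (t • N) := by
  let _ : NormedRing (Matrix (Fin 18) (Fin 18) ℝ) := Matrix.linftyOpNormedRing
  let _ : NormedAlgebra ℝ (Matrix (Fin 18) (Fin 18) ℝ) := Matrix.linftyOpNormedAlgebra
  have h1 : t • C Q lam = algebraMap ℝ (Matrix (Fin 18) (Fin 18) ℝ) (-t) + t • N := by
    rw [C_eq, smul_sub, Algebra.algebraMap_eq_smul_one, neg_smul]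
    abel
  have h3 : algebraMap ℝ (Matrix (Fin 18) (Fin 18) ℝ) (NormedSpace.exp (-t)) =
      NormedSpace.exp (algebraMap ℝ (Matrix (Fin 18) (Fin 18) ℝ) (-t)) :=
    NormedSpace.algebraMap_exp_comm (𝕂 := ℝ) (𝔸 := Matrix (Fin 18) (Fin 18) ℝ) (-t)
  have h4 : Commute (algebraMap ℝ (Matrix (Fin 18) (Fin 18) ℝ) (-t)) (t • N) :=
    Algebra.commutes _ _
  rw [h1, Matrix.exp_add_of_commute _ _ h4, ← h3,
    Algebra.algebraMap_eq_smul_one, smul_mul_assoc, one_mul, Real.exp_eq_exp_ℝ]

/-- **Q1** is false: for some Markov-modulated Poisson process (of order 18) and some `t ≥ 0`,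
`π exp(C t) 1 < α exp(C t) 1`. **Q2** is true: for every Markov-modulated Poisson process the
matrix `C` is nonsingular and `(π C 1)(π C⁻¹ 1) ≥ 1`. -/
theorem result :
    (∃ (p : ℕ) (Q : Matrix (Fin p) (Fin p) ℝ) (lam pi : Fin p → ℝ), IsMMPP Q lam pi ∧
      ∃ t : ℝ, 0 ≤ t ∧ survival Q lam pi t < survival Q lam (alpha lam pi) t) ∧
    (∀ (p : ℕ) (Q : Matrix (Fin p) (Fin p) ℝ) (lam pi : Fin p → ℝ), IsMMPP Q lam pi →
      IsUnit (C Q lam) ∧ 1 ≤ (pi ⬝ᵥ (C Q lam *ᵥ 1)) * (pi ⬝ᵥ ((C Q lam)⁻¹ *ᵥ 1))) := by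
  constructor
  · refine ⟨18, Q, lam, pi, mmpp, 18, by norm_num, ?_⟩
    unfold survival
    rw [exp_C, Matrix.smul_mulVec, dotProduct_smul, dotProduct_smul, smul_eq_mul, smul_eq_mul]
    refine mul_lt_mul_of_pos_left ?_ (Real.exp_pos _)
    have h1 := (hasSum_exp_mulVec 18 (alpha lam pi)).sub (hasSum_exp_mulVec 18 pi)
    have h2 : HasSum (fun m : ℕ => (18 : ℝ) ^ m / m.factorial * (d m : ℝ))
        (24 * (alpha lam pi ⬝ᵥ (NormedSpace.exp ((18 : ℝ) • N) *ᵥ 1) -
          pi ⬝ᵥ (NormedSpace.exp ((18 : ℝ) • N) *ᵥ 1))) := by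
      refine (h1.mul_left 24).congr_fun ?_
      intro m
      have h3 := dd_eq m
      unfold dd at h3
      rw [← mul_sub, h3]
      ring
    have h3 := series_pos _ h2
    linarith
  · intro p Q lam pi h
    exact ⟨(Matrix.isUnit_iff_isUnit_det _).2 (isUnit_iff_ne_zero.2 h.det_ne_zero), h.ineq⟩

end Pool.Agent.Results.MP_af8c33_pr.FirstEventTimes
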